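import Pool.Agent.Run7.h960.GunBoard

/-!
# The gunport problem: Pearce's formula fails, with a linear deficit
-/

set_option autoImplicit false

namespace Pool.Agent.Results.MP_290120_co.FormulaFails

open Pool.Agent.Run7.h960.Gun

/-- For boards with no side divisible by 3 the maximal number `G m n` of holes of a gunport
configuration is smaller than `m * n / 3` by a term of the order of the smaller side.  In
particular Pearce's formula is false for all `m, n ≥ 55` not divisible by 3. -/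
theorem result :
    (∀ m n : ℕ, IsGreatest (holeCounts m n) (G m n)) ∧
    (∀ m n : ℕ, 4 ≤ m → 4 ≤ n → ¬ 3 ∣ m → ¬ 3 ∣ n →
      2 * (m * n : ℤ) + (m * n - 3 * G m n) ≤ (8 * (m * n - 3 * G m n) + 18) * (m + n + 10)) ∧
    (∀ m n : ℕ, 55 ≤ m → 55 ≤ n → ¬ 3 ∣ m → ¬ 3 ∣ n → 3 * G m n + 4 < m * n) ∧
    ¬ (∀ m n : ℕ, 2 ≤ m → 2 ≤ n → ¬ 3 ∣ m → ¬ 3 ∣ n →
      (m % 3 = n % 3 → G m n = (m * n - 4) / 3) ∧
      (m % 3 ≠ n % 3 → G m n = (m * n - 2) / 3)) := by
  have hA : ∀ m n : ℕ, 4 ≤ m → 4 ≤ n → ¬ 3 ∣ m → ¬ 3 ∣ n →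
      2 * (m * n : ℤ) + (m * n - 3 * G m n) ≤
        (8 * (m * n - 3 * G m n) + 18) * (m + n + 10) := by
    intro m n hm4 hn4 hm hn
    obtain ⟨D, hD, hk⟩ := (isGreatest_G m n).1
    have h := bound hD hm4 hn4 hm hn
    rw [hk] at h
    exact h
  have hB : ∀ m n : ℕ, 55 ≤ m → 55 ≤ n → ¬ 3 ∣ m → ¬ 3 ∣ n → 3 * G m n + 4 < m * n := by
    intro m n hm hn hm3 hn3
    have h := hA m n (by omega) (by omega) hm3 hn3
    by_contra hcon
    have h1 : (m * n : ℤ) - 3 * G m n ≤ 4 := by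
      have : m * n ≤ 3 * G m n + 4 := by omega
      have : (m * n : ℤ) ≤ 3 * G m n + 4 := by exact_mod_cast this
      linarith
    have hm' : (55 : ℤ) ≤ m := by exact_mod_cast hm
    have hn' : (55 : ℤ) ≤ n := by exact_mod_cast hn
    generalize (m * n : ℤ) - 3 * G m n = δ at h h1
    have h2 : (8 * δ + 18) * (m + n + 10 : ℤ) ≤ (8 * 4 + 18) * (m + n + 10) - (4 - δ) := by
      nlinarith
    nlinarith
  refine ⟨isGreatest_G, hA, hB, fun h => ?_⟩
  have h1 := (h 55 55 (by norm_num) (by norm_num) (by norm_num) (by norm_num)).1 rfl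
  have h2 := hB 55 55 le_rfl le_rfl (by norm_num) (by norm_num)
  omega

end Pool.Agent.Results.MP_290120_co.FormulaFails
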